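import Pool.Agent.Lib.MP_1020fe_co.Proof

namespace Pool.Agent.Results.MP_1020fe_co.SumOfTwoNonSAP

open Pool.Agent.Lib.MP_1020fe_co

/-- **Main result.** There are a `5 × 5` sign pattern `P₁` and a `4 × 4` sign pattern `P₂` such
that `P₁ ⊕ P₂` is spectrally arbitrary but neither `P₁` nor `P₂` is; moreover the same holds for
the underlying zero-nonzero patterns. -/
theorem result :
    ∃ (P₁ : Matrix (Fin 5) (Fin 5) SignType) (P₂ : Matrix (Fin 4) (Fin 4) SignType),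
      (SignSAP (signSum P₁ P₂) ∧ ¬ SignSAP P₁ ∧ ¬ SignSAP P₂) ∧
      (ZNSAP (znSum (toZN P₁) (toZN P₂)) ∧ ¬ ZNSAP (toZN P₁) ∧ ¬ ZNSAP (toZN P₂)) :=
  main

end Pool.Agent.Results.MP_1020fe_co.SumOfTwoNonSAP
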